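import Mathlib

set_option autoImplicit false

open Set Filter Topology MeasureTheory Metric
open scoped ENNReal NNReal

namespace Pool.Agent.TH94.MK

section
variable {E : Type} [NormedAddCommGroup E] [NormedSpace ℝ E] [FiniteDimensional ℝ E]
  [MeasurableSpace E] [BorelSpace E]

/-- the projection from a point onto a hyperplane is Lipschitz on bounded pieces away from the
point -/
theorem proj_lip {W : Type} [NormedAddCommGroup W] [NormedSpace ℝ W] (φ : E →L[ℝ] ℝ)
    (P : E →L[ℝ] W) (a : E) (h : ℝ) (m : ℕ) :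
    ∃ C : ℝ≥0, LipschitzOnWith C (fun k => (h / φ (k - a)) • P (k - a))
      {k | 1 / ((m : ℝ) + 1) ≤ |φ (k - a)| ∧ ‖k - a‖ ≤ m} := by
  have hm : (0 : ℝ) < (m : ℝ) + 1 := by positivity
  refine ⟨⟨|h| * (((m : ℝ) + 1) * ‖P‖ + (m : ℝ) * ‖P‖ * (((m : ℝ) + 1) ^ 2 * ‖φ‖)), by positivity⟩,
    LipschitzOnWith.of_dist_le_mul fun k hk k' hk' => ?_⟩
  obtain ⟨h1, h2⟩ := hk
  obtain ⟨h1', h2'⟩ := hk'
  have hp : 0 < |φ (k - a)| := lt_of_lt_of_le (by positivity) h1
  have hp' : 0 < |φ (k' - a)| := lt_of_lt_of_le (by positivity) h1'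
  have hne : φ (k - a) ≠ 0 := abs_pos.1 hp
  have hne' : φ (k' - a) ≠ 0 := abs_pos.1 hp'
  have hi : |φ (k - a)|⁻¹ ≤ (m : ℝ) + 1 := by
    rw [inv_le_comm₀ hp hm]; simpa using h1
  have hi' : |φ (k' - a)|⁻¹ ≤ (m : ℝ) + 1 := by
    rw [inv_le_comm₀ hp' hm]; simpa using h1'
  rw [dist_eq_norm, dist_eq_norm]
  show _ ≤ |h| * (((m : ℝ) + 1) * ‖P‖ + (m : ℝ) * ‖P‖ * (((m : ℝ) + 1) ^ 2 * ‖φ‖)) * ‖k - k'‖
  have e : (h / φ (k - a)) • P (k - a) - (h / φ (k' - a)) • P (k' - a) =
      (h / φ (k - a)) • P (k - k') + (h * (φ (k' - k) / (φ (k - a) * φ (k' - a)))) • P (k' - a) := by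
    have e1 : φ (k' - k) = φ (k' - a) - φ (k - a) := by rw [← map_sub]; congr 1; abel
    have e2 : P (k - k') = P (k - a) - P (k' - a) := by rw [← map_sub]; congr 1; abel
    rw [e1, e2, smul_sub]
    have e3 : h * ((φ (k' - a) - φ (k - a)) / (φ (k - a) * φ (k' - a))) =
        h / φ (k - a) - h / φ (k' - a) := by field_simp
    rw [e3, sub_smul]; abel
  rw [e]
  refine (norm_add_le _ _).trans ?_
  rw [norm_smul, norm_smul, Real.norm_eq_abs, Real.norm_eq_abs, abs_div, abs_mul, abs_div, abs_mul]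
  have b1 : ‖P (k - k')‖ ≤ ‖P‖ * ‖k - k'‖ := P.le_opNorm _
  have b2 : ‖P (k' - a)‖ ≤ ‖P‖ * m := (P.le_opNorm _).trans (by gcongr)
  have b3 : |φ (k' - k)| ≤ ‖φ‖ * ‖k - k'‖ := by
    have := φ.le_opNorm (k' - k)
    rwa [Real.norm_eq_abs, norm_sub_rev] at this
  have c1 : |h| / |φ (k - a)| * ‖P (k - k')‖ ≤ |h| * ((m : ℝ) + 1) * (‖P‖ * ‖k - k'‖) := by
    rw [div_eq_mul_inv]
    gcongr
  have c2 : |h| * (|φ (k' - k)| / (|φ (k - a)| * |φ (k' - a)|)) * ‖P (k' - a)‖ ≤
      |h| * ((‖φ‖ * ‖k - k'‖) * (((m : ℝ) + 1) * ((m : ℝ) + 1))) * (‖P‖ * m) := by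
    rw [div_eq_mul_inv, mul_inv]
    gcongr
  calc _ ≤ |h| * ((m : ℝ) + 1) * (‖P‖ * ‖k - k'‖) +
      |h| * ((‖φ‖ * ‖k - k'‖) * (((m : ℝ) + 1) * ((m : ℝ) + 1))) * (‖P‖ * m) := add_le_add c1 c2
    _ = _ := by ring

/-- the projection of a null set is null -/
theorem proj_null {W : Type} [NormedAddCommGroup W] [NormedSpace ℝ W] [MeasurableSpace W]
    [BorelSpace W] (φ : E →L[ℝ] ℝ) (P : E →L[ℝ] W) (a : E) (h d : ℝ) (hd : 0 ≤ d) {K : Set E}
    (hK : μH[d] K = 0) :
    μH[d] ((fun k => (h / φ (k - a)) • P (k - a)) '' (K ∩ {k | φ (k - a) ≠ 0})) = 0 := by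
  have hsub : (fun k => (h / φ (k - a)) • P (k - a)) '' (K ∩ {k | φ (k - a) ≠ 0}) ⊆
      ⋃ m : ℕ, (fun k => (h / φ (k - a)) • P (k - a)) ''
        (K ∩ {k | 1 / ((m : ℝ) + 1) ≤ |φ (k - a)| ∧ ‖k - a‖ ≤ m}) := by
    rintro _ ⟨k, ⟨hk, hne⟩, rfl⟩
    have hp : 0 < |φ (k - a)| := abs_pos.2 hne
    obtain ⟨m1, hm1⟩ := exists_nat_one_div_lt hp
    obtain ⟨m2, hm2⟩ := exists_nat_ge ‖k - a‖
    refine mem_iUnion.2 ⟨max m1 m2, mem_image_of_mem _ ⟨hk, ?_, ?_⟩⟩
    · refine le_trans ?_ hm1.le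
      apply one_div_le_one_div_of_le (by positivity)
      have : (m1 : ℝ) ≤ (max m1 m2 : ℕ) := by exact_mod_cast le_max_left _ _
      linarith
    · refine hm2.trans ?_
      exact_mod_cast le_max_right _ _
  refine measure_mono_null hsub (measure_iUnion_null fun m => ?_)
  obtain ⟨C, hC⟩ := proj_lip φ P a h m
  have h1 := (hC.mono (inter_subset_right (s := K))).hausdorffMeasure_image_le hd
  have h2 : μH[d] (K ∩ {k | 1 / ((m : ℝ) + 1) ≤ |φ (k - a)| ∧ ‖k - a‖ ≤ m}) = 0 :=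
    measure_mono_null inter_subset_left hK
  rw [h2, mul_zero] at h1
  exact le_antisymm h1 bot_le

/-- a set of vanishing measure in codimension one does not separate a convex open set -/
theorem joined {U K : Set E} (hU : IsOpen U) (hc : Convex ℝ U)
    (hK : μH[(Module.finrank ℝ E : ℝ) - 1] K = 0) {a b : E} (ha : a ∈ U) (hb : b ∈ U)
    (haK : a ∉ K) (hbK : b ∉ K) (hab : a ≠ b) :
    ∃ c ∈ U, (∀ q ∈ segment ℝ a c, q ∉ K) ∧ ∀ q ∈ segment ℝ b c, q ∉ K := by
  have hne : b - a ≠ 0 := sub_ne_zero.2 hab.symm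
  obtain ⟨φ, -, hφ⟩ := exists_dual_vector ℝ (b - a) (norm_pos_iff.2 hne).ne'
  have hφ' : φ (b - a) = ‖b - a‖ := by simpa using hφ
  have hpos : 0 < φ (b - a) := by rw [hφ']; exact norm_pos_iff.2 hne
  have hφ0 : (φ : E →ₗ[ℝ] ℝ) ≠ 0 := by
    intro h0
    have : φ (b - a) = 0 := congrArg (fun f : E →ₗ[ℝ] ℝ => f (b - a)) h0
    linarith
  let W : Submodule ℝ E := LinearMap.ker (φ : E →ₗ[ℝ] ℝ)
  have hrank : (Module.finrank ℝ W : ℝ) = (Module.finrank ℝ E : ℝ) - 1 := by
    have h1 := Module.Dual.finrank_ker_add_one_of_ne_zero (f := (φ : E →ₗ[ℝ] ℝ)) hφ0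
    have h2 : (Module.finrank ℝ W : ℝ) + 1 = (Module.finrank ℝ E : ℝ) := by exact_mod_cast h1
    linarith
  -- the projection onto the kernel
  let P0 : E →ₗ[ℝ] W := LinearMap.codRestrict W
    (LinearMap.id - (φ : E →ₗ[ℝ] ℝ).smulRight ((φ (b - a))⁻¹ • (b - a))) (by
      intro v
      show φ (v - φ v • ((φ (b - a))⁻¹ • (b - a))) = 0
      rw [map_sub, map_smul, map_smul, smul_eq_mul, smul_eq_mul, inv_mul_cancel₀ hpos.ne', mul_one,
        sub_self])
  let P : E →L[ℝ] W := LinearMap.toContinuousLinearMap P0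
  have hP : ∀ v : E, ((P v : W) : E) = v - φ v • ((φ (b - a))⁻¹ • (b - a)) := fun v => rfl
  have hPw : ∀ w : W, P (w : E) = w := by
    intro w
    apply Subtype.ext
    rw [hP]
    have : φ (w : E) = 0 := w.2
    rw [this, zero_smul, sub_zero]
  have hPb : P (b - a) = 0 := by
    apply Subtype.ext
    rw [hP, smul_smul, mul_inv_cancel₀ hpos.ne', one_smul, sub_self]; rfl
  let mid : E := a + (1 / 2 : ℝ) • (b - a)
  have hd : (0 : ℝ) ≤ (Module.finrank ℝ E : ℝ) - 1 := by rw [← hrank]; positivity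
  have n1 := proj_null φ P a (φ (b - a) / 2) _ hd hK
  have n2 := proj_null φ P b (-(φ (b - a) / 2)) _ hd hK
  rw [← hrank] at n1 n2
  -- the open set of admissible parameters
  let V : Set W := {w | mid + (w : E) ∈ U}
  have hVo : IsOpen V := hU.preimage (continuous_const.add continuous_subtype_val)
  have hmid : mid ∈ U := by
    have := hc ha hb (a := 1 / 2) (b := 1 / 2) (by norm_num) (by norm_num) (by norm_num)
    convert this using 1
    show a + (1 / 2 : ℝ) • (b - a) = _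
    module
  have hV0 : (0 : W) ∈ V := by
    show mid + ((0 : W) : E) ∈ U
    rw [ZeroMemClass.coe_zero, add_zero]; exact hmid
  have hVpos : 0 < μH[(Module.finrank ℝ W : ℝ)] V := hVo.measure_pos _ ⟨0, hV0⟩
  obtain ⟨w, hwV, hw⟩ : ∃ w ∈ V, w ∉ ((fun k => ((φ (b - a) / 2) / φ (k - a)) • P (k - a)) ''
      (K ∩ {k | φ (k - a) ≠ 0})) ∪ ((fun k => (-(φ (b - a) / 2) / φ (k - b)) • P (k - b)) ''
      (K ∩ {k | φ (k - b) ≠ 0})) := by
    by_contra hcon
    push Not at hcon
    have := measure_mono_null (μ := μH[(Module.finrank ℝ W : ℝ)]) (fun w hw => hcon w hw)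
      (measure_union_null n1 n2)
    exact hVpos.ne' this
  rw [mem_union, not_or] at hw
  have hw0 : φ (w : E) = 0 := w.2
  refine ⟨mid + w, hwV, ?_, ?_⟩
  · rintro q hq hqK
    obtain ⟨s, t, hs, ht, hst, rfl⟩ := hq
    have e1 : s • a + t • (mid + (w : E)) - a = t • ((1 / 2 : ℝ) • (b - a) + (w : E)) := by
      have : s = 1 - t := by linarith
      rw [this]
      show (1 - t) • a + t • (a + (1 / 2 : ℝ) • (b - a) + (w : E)) - a = _
      module
    rcases eq_or_lt_of_le ht with h0 | h0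
    · apply haK
      have : s = 1 := by linarith
      rw [this, ← h0, one_smul, zero_smul, add_zero] at hqK
      exact hqK
    · apply hw.1
      have e2 : φ (s • a + t • (mid + (w : E)) - a) = t * (φ (b - a) / 2) := by
        rw [e1, map_smul, map_add, map_smul, hw0]
        simp only [smul_eq_mul]; ring
      refine ⟨s • a + t • (mid + (w : E)), ⟨hqK, ?_⟩, ?_⟩
      · show φ _ ≠ 0
        rw [e2]; positivity
      · beta_reduce
        have e3 : P (s • a + t • (mid + (w : E)) - a) = t • w := by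
          rw [e1, map_smul, map_add, map_smul, hPb, hPw, smul_zero, zero_add]
        rw [e2, e3, smul_smul]
        have : φ (b - a) / 2 / (t * (φ (b - a) / 2)) * t = 1 := by field_simp
        rw [this, one_smul]
  · rintro q hq hqK
    obtain ⟨s, t, hs, ht, hst, rfl⟩ := hq
    have e1 : s • b + t • (mid + (w : E)) - b = t • ((w : E) - (1 / 2 : ℝ) • (b - a)) := by
      have : s = 1 - t := by linarith
      rw [this]
      show (1 - t) • b + t • (a + (1 / 2 : ℝ) • (b - a) + (w : E)) - b = _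
      module
    rcases eq_or_lt_of_le ht with h0 | h0
    · apply hbK
      have : s = 1 := by linarith
      rw [this, ← h0, one_smul, zero_smul, add_zero] at hqK
      exact hqK
    · apply hw.2
      have e2 : φ (s • b + t • (mid + (w : E)) - b) = - (t * (φ (b - a) / 2)) := by
        rw [e1, map_smul, map_sub φ (w : E), map_smul, hw0]
        simp only [smul_eq_mul]; ring
      have e3 : P (s • b + t • (mid + (w : E)) - b) = t • w := by
        rw [e1, map_smul, map_sub P (w : E), map_smul, hPb, hPw, smul_zero, sub_zero]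
      refine ⟨s • b + t • (mid + (w : E)), ⟨hqK, ?_⟩, ?_⟩
      · show φ _ ≠ 0
        rw [e2]
        have : 0 < t * (φ (b - a) / 2) := by positivity
        linarith
      · beta_reduce
        rw [e2, e3, smul_smul]
        have : -(φ (b - a) / 2) / -(t * (φ (b - a) / 2)) * t = 1 := by field_simp
        rw [this, one_smul]

theorem preconn {U K : Set E} (hU : IsOpen U) (hc : Convex ℝ U)
    (hK : μH[(Module.finrank ℝ E : ℝ) - 1] K = 0) : IsPreconnected (U \ K) := by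
  refine isPreconnected_of_forall_pair fun a ha b hb => ?_
  by_cases hab : a = b
  · refine ⟨{a}, by simpa using ha, rfl, hab ▸ rfl, isPreconnected_singleton⟩
  obtain ⟨c, hcU, h1, h2⟩ := joined hU hc hK ha.1 hb.1 ha.2 hb.2 hab
  refine ⟨segment ℝ a c ∪ segment ℝ b c, ?_, Or.inl (left_mem_segment ℝ _ _),
    Or.inr (left_mem_segment ℝ _ _), ?_⟩
  · rintro q (hq | hq)
    · exact ⟨hc.segment_subset ha.1 hcU hq, h1 q hq⟩
    · exact ⟨hc.segment_subset hb.1 hcU hq, h2 q hq⟩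
  · exact IsPreconnected.union c (right_mem_segment ℝ _ _) (right_mem_segment ℝ _ _)
      (convex_segment _ _).isPreconnected (convex_segment _ _).isPreconnected

/-- such a set has dense complement -/
theorem dense_compl {K : Set E} (hK : μH[(Module.finrank ℝ E : ℝ) - 1] K = 0) {U : Set E}
    (hU : IsOpen U) (hne : U.Nonempty) : ∃ q ∈ U, q ∉ K := by
  by_contra hcon
  push Not at hcon
  have h1 : μH[(Module.finrank ℝ E : ℝ)] K = 0 := by
    have := Measure.hausdorffMeasure_mono (show (Module.finrank ℝ E : ℝ) - 1 ≤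
      (Module.finrank ℝ E : ℝ) by linarith) K
    rw [hK] at this
    exact le_antisymm this bot_le
  have h2 : 0 < μH[(Module.finrank ℝ E : ℝ)] U := hU.measure_pos _ hne
  exact h2.ne' (measure_mono_null (fun q hq => hcon q hq) h1)

end

end Pool.Agent.TH94.MK
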