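import Pool.Agent.W689.Mk.Tube
import Pool.Agent.TH94.MK.Sep

set_option autoImplicit false

open Set Filter Topology MeasureTheory Metric
open scoped ENNReal NNReal
open Pool.Agent.W689.Mk

namespace Pool.Agent.TH94.MK

section
variable {X E : Type} [TopologicalSpace X] [T2Space X] [NormedAddCommGroup E] [NormedSpace ℝ E]
  {dev : X → E}

open Classical in
/-- the exponential section at `x` -/
noncomputable def es (dev : X → E) (x : X) (q : E) : X :=
  if h : ∃ y, Ex dev x (q - dev x) y then h.choose else x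

theorem es_eq (hloc : IsLocalHomeomorph dev) {x : X} {q : E} {y : X}
    (hy : Ex dev x (q - dev x) y) : es dev x q = y := by
  have h1 : ∃ y, Ex dev x (q - dev x) y := ⟨y, hy⟩
  have h2 : es dev x q = h1.choose := dif_pos h1
  rw [h2]
  exact h1.choose_spec.unique hloc hy

/-- the set of visible points -/
def Vis (dev : X → E) (x : X) : Set E := {q | ∃ y, Ex dev x (q - dev x) y}

theorem es_cont (hloc : IsLocalHomeomorph dev) {x : X} {q : E} (hq : q ∈ Vis dev x) :
    ContinuousAt (es dev x) q := by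
  obtain ⟨y, U, τ, h1, h2, h3, h4, h5⟩ := hq
  rw [add_sub_cancel] at h4 h5
  have h6 : ContinuousAt τ q := (h1.cont q h4).continuousAt (h1.isOpen.mem_nhds h4)
  refine h6.congr ?_
  filter_upwards [h1.isOpen.mem_nhds h4] with z hz
  refine (es_eq hloc (y := τ z) ⟨U, τ, h1, h2, h3, ?_, ?_⟩).symm
  · rw [add_sub_cancel]; exact hz
  · rw [add_sub_cancel]

theorem es_dev (hloc : IsLocalHomeomorph dev) {x : X} {q : E} (hq : q ∈ Vis dev x) :
    dev (es dev x q) = q := by
  obtain ⟨y, hy⟩ := hq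
  rw [es_eq hloc hy, hy.dev_eq, add_sub_cancel]

/-- a ball around `dev y` with a section through `y` -/
theorem ball_sec (hloc : IsLocalHomeomorph dev) (y : X) :
    ∃ (σ : E → X) (r : ℝ), 0 < r ∧ Sec dev (ball (dev y) r) σ ∧ σ (dev y) = y := by
  obtain ⟨e, r, hx, he, hr, ht⟩ := exists_sec hloc y
  refine ⟨e.symm, r, hr, sec_of_target e he _ r ht, ?_⟩
  rw [he]; exact e.left_inv hx

variable [FiniteDimensional ℝ E] [MeasurableSpace E] [BorelSpace E]

theorem kleinian [PreconnectedSpace X] (hloc : IsLocalHomeomorph dev) {x : X}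
    (hK : μH[(Module.finrank ℝ E : ℝ) - 1] {v | ¬ ∃ y, Ex dev x v y} = 0) :
    Function.Injective dev := by
  have hK' : μH[(Module.finrank ℝ E : ℝ) - 1] (Vis dev x)ᶜ = 0 := by
    have h1 : (Vis dev x)ᶜ = (IsometryEquiv.addLeft (dev x)) '' {v | ¬ ∃ y, Ex dev x v y} := by
      ext q
      constructor
      · intro hq
        exact ⟨q - dev x, hq, by simp⟩
      · rintro ⟨v, hv, rfl⟩ hcon
        apply hv
        obtain ⟨y, hy⟩ := hcon
        refine ⟨y, ?_⟩
        have : (IsometryEquiv.addLeft (dev x)) v - dev x = v := by simp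
        rwa [this] at hy
    rw [h1, IsometryEquiv.hausdorffMeasure_image]
    exact hK
  let G : Set X := {y | ∀ᶠ z in 𝓝 y, dev z ∈ Vis dev x → es dev x (dev z) = z}
  have hGo : IsOpen G := by
    rw [isOpen_iff_mem_nhds]
    intro y hy
    exact eventually_eventually_nhds.2 hy
  have hGx : x ∈ G := by
    obtain ⟨σ, r, hr, hσ, hσx⟩ := ball_sec hloc x
    have hop := hσ.isOpen_image hloc isOpen_ball Subset.rfl
    have hmem : x ∈ σ '' ball (dev x) r := ⟨_, mem_ball_self hr, hσx⟩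
    show ∀ᶠ z in 𝓝 x, dev z ∈ Vis dev x → es dev x (dev z) = z
    filter_upwards [hop.mem_nhds hmem] with z hz _
    obtain ⟨q, hq, rfl⟩ := hz
    rw [hσ.inv q hq]
    apply es_eq hloc
    exact ⟨_, σ, hσ, mem_ball_self hr, hσx, by rwa [add_sub_cancel], by rw [add_sub_cancel]⟩
  have hGc : IsClosed G := by
    rw [← closure_subset_iff_isClosed]
    intro y hy
    obtain ⟨σ, r, hr, hσ, hσy⟩ := ball_sec hloc y
    have hop := hσ.isOpen_image hloc isOpen_ball Subset.rfl
    have hmem : y ∈ σ '' ball (dev y) r := ⟨_, mem_ball_self hr, hσy⟩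
    obtain ⟨z0, hz0W, hz0G⟩ := mem_closure_iff.1 hy _ hop hmem
    obtain ⟨q0, hq0, rfl⟩ := hz0W
    -- points near q0
    have h1 : ContinuousAt σ q0 := (hσ.cont q0 hq0).continuousAt (isOpen_ball.mem_nhds hq0)
    have h2 : ∀ᶠ q in 𝓝 q0, dev (σ q) ∈ Vis dev x → es dev x (dev (σ q)) = σ q :=
      h1.eventually hz0G
    have h3 : ∀ᶠ q in 𝓝 q0, q ∈ ball (dev y) r ∧ (q ∈ Vis dev x → es dev x q = σ q) := by
      filter_upwards [h2, isOpen_ball.mem_nhds hq0] with q hq hqB
      rw [hσ.inv q hqB] at hq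
      exact ⟨hqB, hq⟩
    obtain ⟨N, hN, hNo, hNq⟩ := _root_.eventually_nhds_iff.1 h3
    obtain ⟨q, hqN, hqV⟩ := dense_compl hK' hNo ⟨q0, hNq⟩
    have hqV' : q ∈ Vis dev x := not_not.1 hqV
    have hqB := (hN q hqN).1
    have hqe := (hN q hqN).2 hqV'
    -- propagation
    have hpre : IsPreconnected (ball (dev y) r \ (Vis dev x)ᶜ) :=
      preconn isOpen_ball (convex_ball _ _) hK'
    have hall : ∀ q' ∈ ball (dev y) r \ (Vis dev x)ᶜ, es dev x q' = σ q' := by
      intro q' hq'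
      refine (T2Space.isSeparatedMap dev).eqOn_of_comp_eqOn hloc.isLocallyInjective hpre
        (fun a ha => ?_) (hσ.cont.mono sdiff_subset) (fun a ha => ?_) ⟨hqB, hqV⟩ hqe hq'
      · exact (es_cont hloc (not_not.1 ha.2)).continuousWithinAt
      · simp only [Function.comp_apply]
        rw [es_dev hloc (not_not.1 ha.2), hσ.inv a ha.1]
    show ∀ᶠ z in 𝓝 y, dev z ∈ Vis dev x → es dev x (dev z) = z
    filter_upwards [hop.mem_nhds hmem] with z hz hzV
    obtain ⟨q', hq', rfl⟩ := hz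
    rw [hσ.inv q' hq'] at hzV ⊢
    exact hall q' ⟨hq', not_not.2 hzV⟩
  have hG : G = univ := IsClopen.eq_univ ⟨hGc, hGo⟩ ⟨x, hGx⟩
  intro y y' hyy
  obtain ⟨σ, r, hr, hσ, hσy⟩ := ball_sec hloc y
  obtain ⟨σ', r', hr', hσ', hσy'⟩ := ball_sec hloc y'
  rw [← hyy] at hσ' hσy'
  have key : ∀ (z : X) (τ : E → X) (ρ : ℝ), 0 < ρ → Sec dev (ball (dev y) ρ) τ →
      τ (dev y) = z → ∀ᶠ q in 𝓝 (dev y), q ∈ Vis dev x → es dev x q = τ q := by
    intro z τ ρ hρ hτ hτz
    have h1 : ContinuousAt τ (dev y) :=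
      (hτ.cont _ (mem_ball_self hρ)).continuousAt (isOpen_ball.mem_nhds (mem_ball_self hρ))
    have hz : z ∈ G := by rw [hG]; trivial
    rw [← hτz] at hz
    filter_upwards [h1.eventually hz, isOpen_ball.mem_nhds (mem_ball_self hρ)] with q hq hqB
    rwa [hτ.inv q hqB] at hq
  have h1 := key y σ r hr hσ hσy
  have h2 := key y' σ' r' hr' hσ' hσy'
  have h3 : ∀ᶠ q in 𝓝 (dev y), (q ∈ ball (dev y) r ∧ q ∈ ball (dev y) r') ∧
      (q ∈ Vis dev x → σ q = σ' q) := by
    filter_upwards [h1, h2, isOpen_ball.mem_nhds (mem_ball_self hr),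
      isOpen_ball.mem_nhds (mem_ball_self hr')] with q ha hb hc hd
    exact ⟨⟨hc, hd⟩, fun hq => (ha hq).symm.trans (hb hq)⟩
  obtain ⟨N, hN, hNo, hNq⟩ := _root_.eventually_nhds_iff.1 h3
  obtain ⟨q, hqN, hqV⟩ := dense_compl hK' hNo ⟨dev y, hNq⟩
  have h4 := hN q hqN
  have h5 := hσ.eqOn hloc hσ' h4.1.1 h4.1.2 (h4.2 (not_not.1 hqV)) (dev y) (mem_ball_self hr)
    (mem_ball_self hr')
  rw [hσy, hσy'] at h5
  exact h5

end

end Pool.Agent.TH94.MK
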