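import Pool.Agent.W689.Mk.Half

set_option autoImplicit false

open Set Filter Topology Metric
open Pool.Agent.W689.Mk

namespace Pool.Agent.TH94.MK

section
variable {E : Type} [NormedAddCommGroup E] [NormedSpace ℝ E] [FiniteDimensional ℝ E]

/-- bounded unimodular maps are bounded from below -/
theorem low (R : ℝ) : ∃ c > 0, ∀ A : E →L[ℝ] E, ‖A‖ ≤ R → |A.det| = 1 →
    ∀ w, c * ‖w‖ ≤ ‖A w‖ := by
  have : ProperSpace E := FiniteDimensional.proper_real E
  have : ProperSpace (E →L[ℝ] E) := FiniteDimensional.proper_real _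
  let Z : Set ((E →L[ℝ] E) × E) := (closedBall 0 R ∩ {A | |A.det| = 1}) ×ˢ sphere 0 1
  have hZ : IsCompact Z := by
    refine IsCompact.prod ?_ (isCompact_sphere _ _)
    refine (isCompact_closedBall _ _).inter_right ?_
    exact isClosed_eq (ContinuousLinearMap.continuous_det.abs) continuous_const
  have hf : Continuous fun z : (E →L[ℝ] E) × E => ‖z.1 z.2‖ := by
    fun_prop
  have hpos : ∀ z ∈ Z, 0 < ‖z.1 z.2‖ := by
    rintro ⟨A, w⟩ ⟨⟨_, hA⟩, hw⟩
    rw [norm_pos_iff]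
    intro h0
    have hw1 : ‖w‖ = 1 := by simpa using hw
    have hinj : LinearMap.ker (A : E →ₗ[ℝ] E) = ⊥ := by
      by_contra hne
      have h2 : A.det = 0 := by
        by_contra hd0
        exact hne (LinearMap.ker_eq_bot.2
          (LinearMap.equivOfDetNeZero (A : E →ₗ[ℝ] E) hd0).injective)
      have h3 : |A.det| = 1 := hA
      rw [h2] at h3
      simp at h3
    have : w = 0 := by
      have h1 : w ∈ LinearMap.ker (A : E →ₗ[ℝ] E) := h0
      rw [hinj] at h1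
      exact h1
    rw [this] at hw1
    simp at hw1
  rcases Z.eq_empty_or_nonempty with hZe | hZn
  · refine ⟨1, one_pos, fun A hA hd w => ?_⟩
    by_cases hw : w = 0
    · simp [hw]
    · exfalso
      have : (A, (‖w‖⁻¹) • w) ∈ Z := by
        refine ⟨⟨by simpa using hA, hd⟩, ?_⟩
        rw [mem_sphere_zero_iff_norm, norm_smul, norm_inv, norm_norm]
        exact inv_mul_cancel₀ (norm_pos_iff.2 hw).ne'
      rw [hZe] at this
      exact this
  · obtain ⟨z0, hz0, hmin⟩ := hZ.exists_isMinOn hZn hf.continuousOn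
    refine ⟨‖z0.1 z0.2‖, hpos z0 hz0, fun A hA hd w => ?_⟩
    by_cases hw : w = 0
    · simp [hw]
    · have hwp := norm_pos_iff.2 hw
      have hz : (A, (‖w‖⁻¹) • w) ∈ Z := by
        refine ⟨⟨by simpa using hA, hd⟩, ?_⟩
        rw [mem_sphere_zero_iff_norm, norm_smul, norm_inv, norm_norm]
        exact inv_mul_cancel₀ hwp.ne'
      have h1 : ‖z0.1 z0.2‖ ≤ ‖A ((‖w‖⁻¹) • w)‖ := hmin hz
      rw [map_smul, norm_smul, norm_inv, norm_norm] at h1
      calc ‖z0.1 z0.2‖ * ‖w‖ ≤ ‖w‖⁻¹ * ‖A w‖ * ‖w‖ := by gcongr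
        _ = ‖A w‖ := by field_simp

theorem big (A : E →L[ℝ] E) : ∃ w, ‖w‖ ≤ 1 ∧ ‖A‖ / 2 ≤ ‖A w‖ := by
  rcases eq_or_lt_of_le (norm_nonneg A) with h | h
  · exact ⟨0, by simp, by rw [← h]; simp⟩
  · obtain ⟨w, hw, hA⟩ := A.exists_lt_apply_of_lt_opNorm (half_lt_self h)
    exact ⟨w, hw.le, hA.le⟩

variable {Γ : Type} [Group Γ] {hol : Γ →* (E ≃ᵃ[ℝ] E)}

/-- the complement of a domain with compact quotient under a unimodular group contains a line
through each boundary point -/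
theorem line_of_boundary {Ω : Set E} (hΩ : IsOpen Ω) (hinv : ∀ (γ : Γ), ∀ q ∈ Ω, hol γ q ∈ Ω)
    (hdet : ∀ γ : Γ, |LinearMap.det ((hol γ).linear : E →ₗ[ℝ] E)| = 1)
    (hpd : ∀ C : Set E, IsCompact C → C ⊆ Ω → {γ : Γ | ∃ c ∈ C, hol γ c ∈ C}.Finite)
    {C0 : Set E} (hC0 : IsCompact C0) (hC0Ω : C0 ⊆ Ω)
    (hcc : ∀ q ∈ Ω, ∃ γ : Γ, ∃ c ∈ C0, hol γ c = q) {p : E} (hp : p ∈ closure Ω) (hpΩ : p ∉ Ω) :
    ∃ u : E, u ≠ 0 ∧ ∀ s : ℝ, p + s • u ∉ Ω := by
  have : ProperSpace E := FiniteDimensional.proper_real E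
  obtain ⟨a, haΩ, ha⟩ := mem_closure_iff_seq_limit.1 hp
  choose γ c hc hγc using fun k => hcc (a k) (haΩ k)
  obtain ⟨r, hr, hrΩ⟩ := hC0.exists_cthickening_subset_open hΩ hC0Ω
  have hC1 : IsCompact (cthickening r C0) := hC0.cthickening
  have hin : ∀ k (w : E), ‖w‖ ≤ r → c k + w ∈ cthickening r C0 := by
    intro k w hw
    refine mem_cthickening_of_dist_le _ _ _ _ (hc k) ?_
    rw [dist_eq_norm, add_sub_cancel_left]; exact hw
  have hmove : ∀ k (w : E), hol (γ k) (c k + w) = a k + cl hol (γ k) w := by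
    intro k w
    rw [hol_add, hγc k, cl_apply]
  -- first claim
  have claim1 : ∀ q ∈ Ω, ∃ ε > 0, ∀ᶠ k in atTop, ∀ w : E, ‖w‖ ≤ r →
      a k + cl hol (γ k) w ∉ closedBall q ε := by
    intro q hq
    obtain ⟨ε, hε, hεΩ⟩ := Metric.nhds_basis_closedBall.mem_iff.1 (hΩ.mem_nhds hq)
    refine ⟨ε, hε, ?_⟩
    have hC : IsCompact (cthickening r C0 ∪ closedBall q ε) := hC1.union (isCompact_closedBall _ _)
    have hCΩ : cthickening r C0 ∪ closedBall q ε ⊆ Ω := union_subset hrΩ hεΩ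
    have hF := hpd _ hC hCΩ
    set F := {γ : Γ | ∃ c ∈ cthickening r C0 ∪ closedBall q ε,
      hol γ c ∈ cthickening r C0 ∪ closedBall q ε} with hFdef
    have hT : IsCompact (⋃ g ∈ F, hol g '' C0) :=
      hF.isCompact_biUnion fun g _ => hC0.image (hol_cont g)
    have hpT : p ∉ ⋃ g ∈ F, hol g '' C0 := by
      intro hcon
      obtain ⟨g, _, hcon⟩ := mem_iUnion₂.1 hcon
      obtain ⟨c', hc', rfl⟩ := hcon
      exact hpΩ (hinv g c' (hC0Ω hc'))
    have hev : ∀ᶠ k in atTop, a k ∉ ⋃ g ∈ F, hol g '' C0 :=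
      ha.eventually (hT.isClosed.isOpen_compl.mem_nhds hpT)
    filter_upwards [hev] with k hk w hw hcon
    apply hk
    refine mem_iUnion₂.2 ⟨γ k, ?_, c k, hc k, hγc k⟩
    refine ⟨c k + w, Or.inl (hin k w hw), Or.inr ?_⟩
    rw [hmove]; exact hcon
  -- second claim
  have claim2 : ∀ R : ℝ, ∀ᶠ k in atTop, R < ‖cl hol (γ k)‖ := by
    intro R
    obtain ⟨b, hb, hlow⟩ := low (E := E) R
    have hev : ∀ᶠ k in atTop, ‖p - a k‖ < b * r := by
      have h1 : Tendsto (fun k => ‖p - a k‖) atTop (𝓝 0) := by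
        have := (tendsto_const_nhds (x := p)).sub ha
        rw [sub_self] at this
        simpa using this.norm
      exact h1.eventually (gt_mem_nhds (by positivity))
    filter_upwards [hev] with k hk
    by_contra hcon
    push Not at hcon
    have hd : |(cl hol (γ k)).det| = 1 := hdet (γ k)
    have h1 := hlow _ hcon hd (cl hol (γ k)⁻¹ (p - a k))
    rw [cl_inv'] at h1
    have h2 : ‖cl hol (γ k)⁻¹ (p - a k)‖ ≤ r := by
      by_contra h3
      push Not at h3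
      nlinarith
    have h3 := hmove k (cl hol (γ k)⁻¹ (p - a k))
    rw [cl_inv', add_sub_cancel] at h3
    apply hpΩ
    rw [← h3]
    exact hinv _ _ (hrΩ (hin k _ h2))
  -- the direction
  choose w hw1 hw2 using fun k => big (cl hol (γ k))
  have hT : Tendsto (fun k => ‖cl hol (γ k) (w k)‖) atTop atTop := by
    rw [Filter.tendsto_atTop]
    intro b
    filter_upwards [claim2 (2 * b)] with k hk
    have := hw2 k
    linarith
  have hu1 : ∀ k, ‖(‖cl hol (γ k) (w k)‖⁻¹) • cl hol (γ k) (w k)‖ ≤ 1 := by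
    intro k
    rw [norm_smul, norm_inv, norm_norm]
    by_cases h0 : ‖cl hol (γ k) (w k)‖ = 0
    · rw [h0]; simp
    · rw [inv_mul_cancel₀ h0]
  obtain ⟨u, _, φ, hφ, hφu⟩ := (isCompact_closedBall (0 : E) 1).tendsto_subseq
    (x := fun k => (‖cl hol (γ k) (w k)‖⁻¹) • cl hol (γ k) (w k)) (fun k => by
      rw [mem_closedBall_zero_iff]; exact hu1 k)
  have hφt := hφ.tendsto_atTop
  refine ⟨u, ?_, ?_⟩
  · have h1 : Tendsto (fun k => ‖(‖cl hol (γ (φ k)) (w (φ k))‖⁻¹) • cl hol (γ (φ k)) (w (φ k))‖)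
        atTop (𝓝 ‖u‖) := hφu.norm
    have h2 : ∀ᶠ k in atTop,
        ‖(‖cl hol (γ (φ k)) (w (φ k))‖⁻¹) • cl hol (γ (φ k)) (w (φ k))‖ = 1 := by
      filter_upwards [(hT.comp hφt).eventually (eventually_gt_atTop 0)] with k hk
      rw [norm_smul, norm_inv, norm_norm]
      exact inv_mul_cancel₀ (ne_of_gt hk)
    have h3 : ‖u‖ = 1 := by
      refine tendsto_nhds_unique (h1.congr' ?_) tendsto_const_nhds
      filter_upwards [h2] with k hk
      exact hk
    intro h0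
    rw [h0, norm_zero] at h3
    exact zero_ne_one h3
  · intro s hs
    obtain ⟨ε, hε, hev⟩ := claim1 _ hs
    have h1 : Tendsto (fun k => a (φ k) + s • ((‖cl hol (γ (φ k)) (w (φ k))‖⁻¹) •
        cl hol (γ (φ k)) (w (φ k)))) atTop (𝓝 (p + s • u)) :=
      (ha.comp hφt).add (hφu.const_smul s)
    have h2 : ∀ᶠ k in atTop, |s| * ‖cl hol (γ (φ k)) (w (φ k))‖⁻¹ ≤ r := by
      have h3 : Tendsto (fun k => |s| * ‖cl hol (γ (φ k)) (w (φ k))‖⁻¹) atTop (𝓝 (|s| * 0)) :=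
        ((tendsto_inv_atTop_zero.comp (hT.comp hφt))).const_mul _
      rw [mul_zero] at h3
      exact (h3.eventually (gt_mem_nhds hr)).mono fun k hk => hk.le
    obtain ⟨k, hk1, hk2, hk3⟩ := ((h1.eventually (closedBall_mem_nhds _ hε)).and
      (h2.and (hφt.eventually hev))).exists
    refine hk3 ((s * ‖cl hol (γ (φ k)) (w (φ k))‖⁻¹) • w (φ k)) ?_ ?_
    · rw [norm_smul, norm_mul, norm_inv, norm_norm, Real.norm_eq_abs]
      calc _ ≤ |s| * ‖cl hol (γ (φ k)) (w (φ k))‖⁻¹ * 1 := by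
            gcongr; exact hw1 _
        _ ≤ r := by rw [mul_one]; exact hk2
    · rw [map_smul, mul_smul]
      exact hk1

end

end Pool.Agent.TH94.MK
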