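import Pool.Agent.TH94.MK.Plate
import Pool.Agent.TH94.MK.Kle
import Pool.Agent.W689.Mk.Conv2

set_option autoImplicit false

open Set Filter Topology MeasureTheory Metric
open scoped ENNReal NNReal
open Pool.Agent.W689.Mk

namespace Pool.Agent.TH94.MK

section
variable {E : Type} [NormedAddCommGroup E] [NormedSpace ℝ E] [FiniteDimensional ℝ E]
  [MeasurableSpace E] [BorelSpace E]

theorem pos_of_indep {k : ℕ} (b : Fin k → E) (hb : LinearIndependent ℝ b)
    {U : Set (Fin k → ℝ)} (hU : IsOpen U) (hne : U.Nonempty) {S : Set E}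
    (h : ∀ s ∈ U, ∑ i, s i • b i ∈ S) : 0 < μH[(k : ℝ)] S := by
  rw [pos_iff_ne_zero]
  intro h0
  have hinj : LinearMap.ker (Fintype.linearCombination ℝ b) = ⊥ := by
    rw [LinearMap.ker_eq_bot]
    exact linearIndependent_iff_injective_fintypeLinearCombination.1 hb
  obtain ⟨K, _, hK⟩ := (Fintype.linearCombination ℝ b).exists_antilipschitzWith hinj
  have h1 := hK.le_hausdorffMeasure_image (d := (k : ℝ)) (Nat.cast_nonneg k) U
  have h2 : μH[(k : ℝ)] (Fintype.linearCombination ℝ b '' U) = 0 := by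
    refine measure_mono_null ?_ h0
    rintro _ ⟨s, hs, rfl⟩
    rw [Fintype.linearCombination_apply]
    exact h s hs
  rw [h2, mul_zero] at h1
  have h3 : (μH[(k : ℝ)] : Measure (Fin k → ℝ)) = volume := by
    have := hausdorffMeasure_pi_real (ι := Fin k)
    rwa [Fintype.card_fin] at this
  rw [h3] at h1
  exact (hU.measure_pos volume hne).not_ge h1

end

section
variable {X Γ E : Type} [NormedAddCommGroup E] [NormedSpace ℝ E]
  [TopologicalSpace X] [T2Space X] [Group Γ] [MulAction Γ X] {dev : X → E}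
  {hol : Γ →* (E ≃ᵃ[ℝ] E)}

theorem range_inv (D : AffData X Γ E dev hol) (γ : Γ) (q : E) (hq : q ∈ range dev) :
    hol γ q ∈ range dev := by
  obtain ⟨y, rfl⟩ := hq
  exact ⟨γ • y, D.equi γ y⟩

theorem range_pd (D : AffData X Γ E dev hol) (hinj : Function.Injective dev) (C : Set E)
    (hC : IsCompact C) (hCr : C ⊆ range dev) : {γ : Γ | ∃ c ∈ C, hol γ c ∈ C}.Finite := by
  have ho := D.loc.isOpenEmbedding_of_injective hinj
  have h1 : IsCompact (dev ⁻¹' C) := (ho.isInducing.isCompact_preimage_iff hCr).2 hC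
  refine (D.pd _ h1).subset ?_
  rintro γ ⟨c, hc, hγc⟩
  obtain ⟨y, rfl⟩ := hCr hc
  refine ⟨y, hc, ?_⟩
  show dev (γ • y) ∈ C
  rw [D.equi]; exact hγc

theorem range_cc (D : AffData X Γ E dev hol) : ∃ C0 : Set E, IsCompact C0 ∧ C0 ⊆ range dev ∧
    ∀ q ∈ range dev, ∃ γ : Γ, ∃ c ∈ C0, hol γ c = q := by
  obtain ⟨K, hK, hKc⟩ := D.cc
  refine ⟨dev '' K, hK.image D.loc.continuous, image_subset_range _ _, ?_⟩
  rintro _ ⟨y, rfl⟩
  obtain ⟨γ, k, hk, rfl⟩ := hKc y
  exact ⟨γ, dev k, ⟨k, hk, rfl⟩, (D.equi γ k).symm⟩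

theorem not_geod {x : X} {z : E} (hz : z ∉ range dev) {l : ℝ} (hl : 1 ≤ l) :
    ¬ Geod dev x (l • (z - dev x)) := by
  rintro ⟨c, _, _, hc⟩
  have hl0 : 0 < l := by linarith
  have h1 := hc l⁻¹ ⟨by positivity, inv_le_one_of_one_le₀ hl⟩
  rw [smul_smul, inv_mul_cancel₀ hl0.ne', one_smul, add_sub_cancel] at h1
  exact hz ⟨_, h1⟩

/-- an incomplete geodesic of a domain runs into the boundary -/
theorem exit_point (hloc : IsLocalHomeomorph dev) (hinj : Function.Injective dev) {x : X} {v : E}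
    (hv : ¬ Geod dev x v) : ∃ t : ℝ, 0 < t ∧ t ≤ 1 ∧ dev x + t • v ∉ range dev ∧
      dev x + t • v ∈ closure (range dev) := by
  have ho := hloc.isOpenEmbedding_of_injective hinj
  have hcont : Continuous fun t : ℝ => dev x + t • v := by fun_prop
  let T : Set ℝ := Icc 0 1 ∩ {t | dev x + t • v ∉ range dev}
  have hT : IsCompact T := by
    refine isCompact_Icc.inter_right ?_
    exact (ho.isOpen_range.preimage hcont).isClosed_compl
  have hTne : T.Nonempty := by
    by_contra hcon
    rw [not_nonempty_iff_eq_empty] at hcon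
    apply hv
    have hm : ∀ t ∈ Icc (0 : ℝ) 1, dev x + t • v ∈ range dev := by
      intro t ht
      by_contra h
      have : t ∈ T := ⟨ht, h⟩
      rw [hcon] at this
      exact this
    have : Nonempty X := ⟨x⟩
    let e := ho.toOpenPartialHomeomorph dev
    have hsrc : e.source = univ := ho.toOpenPartialHomeomorph_source dev
    have htgt : e.target = range dev := ho.toOpenPartialHomeomorph_target dev
    refine ⟨fun t => e.symm (dev x + t • v), ?_, ?_, ?_⟩
    · refine e.continuousOn_symm.comp hcont.continuousOn fun t ht => ?_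
      rw [htgt]; exact hm t ht
    · show e.symm (dev x + (0 : ℝ) • v) = x
      rw [zero_smul, add_zero]
      exact e.left_inv (by rw [hsrc]; trivial)
    · intro t ht
      exact e.right_inv (by rw [htgt]; exact hm t ht)
  obtain ⟨t, ht, hmin⟩ := hT.exists_isLeast hTne
  have ht0 : 0 < t := by
    rcases eq_or_lt_of_le ht.1.1 with h | h
    · exfalso
      apply ht.2
      rw [← h, zero_smul, add_zero]
      exact mem_range_self x
    · exact h
  refine ⟨t, ht0, ht.1.2, ht.2, ?_⟩
  have h1 : t ∈ closure (Ico 0 t) := by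
    rw [closure_Ico ht0.ne]; exact right_mem_Icc.2 ht0.le
  refine map_mem_closure (f := fun t : ℝ => dev x + t • v) hcont h1 fun s hs => ?_
  by_contra h
  have h2 : s ∈ T := ⟨⟨hs.1, hs.2.le.trans ht.1.2⟩, h⟩
  exact absurd (hmin h2) (not_le.2 hs.2)

variable [FiniteDimensional ℝ E]

theorem line_frontier (D : AffData X Γ E dev hol) (hinj : Function.Injective dev) {p : E}
    (hp : p ∈ closure (range dev)) (hpr : p ∉ range dev) :
    ∃ u : E, u ≠ 0 ∧ ∀ s : ℝ, p + s • u ∉ range dev := by
  obtain ⟨C0, hC0, hC0r, hcc⟩ := range_cc D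
  exact line_of_boundary D.loc.isOpenMap.isOpen_range (range_inv D) D.unimod
    (range_pd D hinj) hC0 hC0r hcc hp hpr

theorem half_plane (D : AffData X Γ E dev hol) (hinj : Function.Injective dev) {x : X} {v : E}
    (hv : ¬ Geod dev x v) : ∃ (t : ℝ) (u : E), 0 < t ∧ t ≤ 1 ∧ LinearIndependent ℝ ![v, u] ∧
      ∀ l : ℝ, t ≤ l → ∀ s : ℝ, ¬ Geod dev x (l • v + s • u) := by
  obtain ⟨t, ht0, ht1, htr, htc⟩ := exit_point D.loc hinj hv
  obtain ⟨u, hu, hs⟩ := line_frontier D hinj htc htr
  refine ⟨t, u, ht0, ht1, ?_, ?_⟩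
  · rw [LinearIndependent.pair_iff]
    intro a b hab
    by_cases ha : a = 0
    · refine ⟨ha, ?_⟩
      rw [ha, zero_smul, zero_add] at hab
      exact (smul_eq_zero.1 hab).resolve_right hu
    · exfalso
      have h1 : v = (-(b / a)) • u := by
        have h2 : a • v = (-b) • u := by
          rw [neg_smul]; exact eq_neg_of_add_eq_zero_left hab
        have h3 : v = a⁻¹ • (a • v) := by rw [smul_smul, inv_mul_cancel₀ ha, one_smul]
        rw [h3, h2, smul_smul]
        congr 1
        field_simp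
      apply hs (t * (b / a))
      have h4 : dev x + t • v + (t * (b / a)) • u = dev x := by
        rw [h1]; module
      rw [h4]; exact mem_range_self x
  · intro l hl s
    have hl0 : 0 < l := ht0.trans_le hl
    have h1 := hs (t * s / l)
    have h2 := not_geod (x := x) h1 (l := l / t) ((one_le_div ht0).2 hl)
    have h3 : (l / t) • (dev x + t • v + (t * s / l) • u - dev x) = l • v + s • u := by
      have e1 : dev x + t • v + (t * s / l) • u - dev x = t • v + (t * s / l) • u := by abel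
      rw [e1, smul_add, smul_smul, smul_smul]
      congr 2 <;> field_simp
    rwa [h3] at h2

variable [MeasurableSpace E] [BorelSpace E]

theorem null_smul (D : AffData X Γ E dev hol) {x : X} {d : ℝ} (hd : 0 ≤ d)
    (h : μH[d] {v | ¬ Geod dev x v} = 0) (γ : Γ) : μH[d] {v | ¬ Geod dev (γ • x) v} = 0 := by
  have h1 : {v | ¬ Geod dev (γ • x) v} ⊆ cl hol γ '' {v | ¬ Geod dev x v} := by
    intro v hv
    refine ⟨cl hol γ⁻¹ v, ?_, cl_inv' γ v⟩
    intro hg
    apply hv
    obtain ⟨z, hz⟩ := Geod.ex D.loc hg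
    have h2 := D.Ex_smul γ hz
    rw [← cl_apply, cl_inv'] at h2
    exact h2.geod
  refine measure_mono_null h1 ?_
  have h2 := (cl hol γ).lipschitz.hausdorffMeasure_image_le hd {v | ¬ Geod dev x v}
  rw [h, mul_zero] at h2
  exact nonpos_iff_eq_zero.1 h2

theorem complete_of_plate [PreconnectedSpace X] [SecondCountableTopology X]
    (D : AffData X Γ E dev hol) (hinj : Function.Injective dev) {x : X} {m : ℕ} {δ : ℝ}
    (hδ : 0 < δ) (hV : ∀ γ : Γ, ∃ V : Submodule ℝ E, Module.finrank ℝ V = m ∧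
      ∀ v ∈ V, δ * ‖v‖ ≤ ‖(hol γ).linear v‖)
    (hK : μH[(m : ℝ) + 1] {v | ¬ Geod dev x v} = 0) : IsHomeomorph dev := by
  by_cases hall : ∀ v, Geod dev x v
  · exact homeo_of_all D.loc (x := x) fun v => Geod.ex D.loc (hall v)
  exfalso
  push Not at hall
  obtain ⟨v, hv⟩ := hall
  obtain ⟨t, ht0, ht1, htr, htc⟩ := exit_point D.loc hinj hv
  obtain ⟨C0, hC0, hC0r, hcc⟩ := range_cc D
  obtain ⟨e, ρ, hρ, he, hplate⟩ := plate_of_boundary D.loc.isOpenMap.isOpen_range (range_inv D)
    (range_pd D hinj) hC0 hC0r hcc hδ hV htc htr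
  set p := dev x + t • v with hpdef
  -- the orbit is contained in the span
  have horb : ∀ γ : Γ, p - dev (γ • x) ∈ Submodule.span ℝ (range e) := by
    intro γ
    by_contra hcon
    have hind : LinearIndependent ℝ (Fin.cons (p - dev (γ • x)) e : Fin (m + 1) → E) :=
      linearIndependent_finCons.2 ⟨he, hcon⟩
    have hnull := null_smul D (by positivity) hK γ
    have hpos := pos_of_indep (S := {v | ¬ Geod dev (γ • x) v}) _ hind
      (U := {s : Fin (m + 1) → ℝ | 1 < s 0} ∩ {s | ∀ i : Fin m, |s i.succ| < ρ}) ?_ ?_ ?_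
    · rw [Nat.cast_add, Nat.cast_one, hnull] at hpos
      exact lt_irrefl _ hpos
    · refine (isOpen_lt continuous_const (continuous_apply 0)).inter ?_
      have : {s : Fin (m + 1) → ℝ | ∀ i : Fin m, |s i.succ| < ρ} =
          ⋂ i : Fin m, {s | |s i.succ| < ρ} := by ext s; simp
      rw [this]
      refine isOpen_iInter_of_finite fun i => ?_
      exact isOpen_lt ((continuous_apply _).abs) continuous_const
    · refine ⟨Fin.cons 2 (fun _ => 0), ?_, ?_⟩
      · show (1 : ℝ) < (Fin.cons 2 (fun _ => 0) : Fin (m + 1) → ℝ) 0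
        rw [Fin.cons_zero]; norm_num
      · intro i
        rw [Fin.cons_succ, abs_zero]; exact hρ
    · rintro s ⟨hs0, hs⟩
      have hs0' : (1 : ℝ) < s 0 := hs0
      have hs00 : 0 < s 0 := by linarith
      have h1 := hplate (fun i => s i.succ / s 0) (by
        rw [pi_norm_le_iff_of_nonneg hρ.le]
        intro i
        rw [Real.norm_eq_abs, abs_div, abs_of_pos hs00, div_le_iff₀ hs00]
        have := hs i
        nlinarith)
      have h2 := not_geod (x := γ • x) h1 (l := s 0) hs0'.le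
      have h3 : s 0 • (p + ∑ i, (s i.succ / s 0) • e i - dev (γ • x)) =
          ∑ i, s i • (Fin.cons (p - dev (γ • x)) e : Fin (m + 1) → E) i := by
        rw [Fin.sum_univ_succ, Fin.cons_zero]
        have e1 : p + ∑ i, (s i.succ / s 0) • e i - dev (γ • x) =
          (p - dev (γ • x)) + ∑ i, (s i.succ / s 0) • e i := by abel
        rw [e1, smul_add, Finset.smul_sum]
        congr 1
        refine Finset.sum_congr rfl fun i _ => ?_
        rw [Fin.cons_succ, smul_smul]
        congr 1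
        field_simp
      rw [h3] at h2
      exact h2
  -- the convex hull of the orbit
  have hCu : convexHull ℝ (range fun γ : Γ => dev (γ • x)) = univ := by
    have : Nonempty X := ⟨x⟩
    refine convex_univ' D (convex_convexHull ℝ _)
      ((range_nonempty _).mono (subset_convexHull ℝ _)) ?_
    intro γ q hq
    have h1 : (hol γ) '' (convexHull ℝ (range fun γ : Γ => dev (γ • x))) =
        convexHull ℝ ((hol γ) '' (range fun γ : Γ => dev (γ • x))) :=
      AffineMap.image_convexHull ((hol γ) : E →ᵃ[ℝ] E) _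
    have h2 : hol γ q ∈ (hol γ) '' (convexHull ℝ (range fun γ : Γ => dev (γ • x))) := ⟨q, hq, rfl⟩
    rw [h1] at h2
    refine convexHull_mono ?_ h2
    rintro _ ⟨_, ⟨γ', rfl⟩, rfl⟩
    refine ⟨γ * γ', ?_⟩
    show dev ((γ * γ') • x) = hol γ (dev (γ' • x))
    rw [mul_smul, D.equi]
  have hF0 : ∀ q : E, p - q ∈ Submodule.span ℝ (range e) := by
    intro q
    have h1 : q ∈ convexHull ℝ (range fun γ : Γ => dev (γ • x)) := by rw [hCu]; trivial
    have h2 : Convex ℝ {q : E | p - q ∈ Submodule.span ℝ (range e)} := by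
      intro a ha b hb s t hs ht hst
      have : p - (s • a + t • b) = s • (p - a) + t • (p - b) := by
        have h3 : p = (s + t) • p := by rw [hst, one_smul]
        conv_lhs => rw [h3]
        module
      show p - (s • a + t • b) ∈ Submodule.span ℝ (range e)
      rw [this]
      exact Submodule.add_mem _ (Submodule.smul_mem _ _ ha) (Submodule.smul_mem _ _ hb)
    refine convexHull_min ?_ h2 h1
    rintro _ ⟨γ, rfl⟩
    exact horb γ
  -- the plate is open
  have hsurj : Function.Surjective (Fintype.linearCombination ℝ e) := by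
    intro w
    have h1 := hF0 (p - w)
    rw [sub_sub_cancel] at h1
    have h2 := (Submodule.mem_span_range_iff_exists_fun ℝ).1 h1
    obtain ⟨c, hc⟩ := h2
    exact ⟨c, by rw [Fintype.linearCombination_apply]; exact hc⟩
  have hop : IsOpenMap (Fintype.linearCombination ℝ e) :=
    LinearMap.isOpenMap_of_finiteDimensional _ hsurj
  have hO : IsOpen ((fun w => p + w) '' (Fintype.linearCombination ℝ e '' ball 0 ρ)) :=
    (Homeomorph.addLeft p).isOpenMap _ (hop _ isOpen_ball)
  have hpO : p ∈ (fun w => p + w) '' (Fintype.linearCombination ℝ e '' ball 0 ρ) :=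
    ⟨0, ⟨0, mem_ball_self hρ, map_zero _⟩, add_zero p⟩
  obtain ⟨q, hqO, hq⟩ := mem_closure_iff.1 htc _ hO hpO
  obtain ⟨_, ⟨s, hs, rfl⟩, rfl⟩ := hqO
  refine hplate s (mem_ball_zero_iff.1 hs).le ?_
  have h9 : p + (Fintype.linearCombination ℝ e) s ∈ range dev := hq
  rwa [Fintype.linearCombination_apply] at h9

theorem main [ConnectedSpace X] [SecondCountableTopology X] (D : AffData X Γ E dev hol) :
    (Function.Injective dev → ∀ p ∈ frontier (range dev), ∃ u : E, u ≠ 0 ∧
      ∀ s : ℝ, p + s • u ∉ range dev) ∧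
    ∀ x : X, μH[(Module.finrank ℝ E : ℝ) - 1] {v | ¬ Geod dev x v} = 0 →
      Function.Injective dev ∧
      (∀ v, ¬ Geod dev x v → ∃ (t : ℝ) (u : E), 0 < t ∧ t ≤ 1 ∧ LinearIndependent ℝ ![v, u] ∧
        ∀ l : ℝ, t ≤ l → ∀ s : ℝ, ¬ Geod dev x (l • v + s • u)) ∧
      (μH[2] {v | ¬ Geod dev x v} = 0 → IsHomeomorph dev) ∧
      ∀ (m : ℕ) (c : ℝ), 0 < c → (∀ γ : Γ, ∃ V : Submodule ℝ E, Module.finrank ℝ V = m ∧
        ∀ v ∈ V, c * ‖v‖ ≤ ‖(hol γ).linear v‖) →
        μH[(m : ℝ) + 1] {v | ¬ Geod dev x v} = 0 → IsHomeomorph dev := by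
  refine ⟨fun hinj p hp => ?_, fun x hK => ?_⟩
  · rw [D.loc.isOpenMap.isOpen_range.frontier_eq] at hp
    exact line_frontier D hinj hp.1 hp.2
  · have hset : {v : E | ¬ ∃ y, Ex dev x v y} = {v | ¬ Geod dev x v} := by
      ext v
      refine not_congr ⟨?_, fun h => Geod.ex D.loc h⟩
      rintro ⟨y, hy⟩
      exact hy.geod
    have hinj : Function.Injective dev := kleinian D.loc (x := x) (by rw [hset]; exact hK)
    refine ⟨hinj, fun v hv => half_plane D hinj hv, fun h2 => ?_, fun m c hc hV hm =>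
      complete_of_plate D hinj hc hV hm⟩
    by_cases hall : ∀ v, Geod dev x v
    · exact homeo_of_all D.loc (x := x) fun v => Geod.ex D.loc (hall v)
    exfalso
    push Not at hall
    obtain ⟨v, hv⟩ := hall
    obtain ⟨t, u, ht0, ht1, hind, hg⟩ := half_plane D hinj hv
    have hpos := pos_of_indep (S := {v | ¬ Geod dev x v}) _ hind
      (U := {s : Fin 2 → ℝ | 1 < s 0}) (isOpen_lt continuous_const (continuous_apply 0))
      ⟨fun _ => 2, by show (1 : ℝ) < 2; norm_num⟩ (by
        intro s hs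
        have hs' : (1 : ℝ) < s 0 := hs
        rw [Fin.sum_univ_two]
        exact hg (s 0) (ht1.trans hs'.le) (s 1))
    have hpos' : 0 < μH[((2 : ℕ) : ℝ)] {v | ¬ Geod dev x v} := hpos
    rw [Nat.cast_ofNat, h2] at hpos'
    exact lt_irrefl _ hpos'

end

end Pool.Agent.TH94.MK
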