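import Pool.Agent.TH94.MK.Main

set_option autoImplicit false

open Set Filter Topology MeasureTheory Metric
open scoped ENNReal NNReal
open Pool.Agent.W689.Mk

namespace Pool.Agent.TH94.MK

section
variable {X Γ E : Type} [NormedAddCommGroup E] [NormedSpace ℝ E]
  [TopologicalSpace X] [T2Space X] [Group Γ] [MulAction Γ X] {dev : X → E}
  {hol : Γ →* (E ≃ᵃ[ℝ] E)} [FiniteDimensional ℝ E]

theorem geod_smul (D : AffData X Γ E dev hol) {x : X} (γ : Γ) {w : E}
    (h : Geod dev x (cl hol γ⁻¹ w)) : Geod dev (γ • x) w := by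
  obtain ⟨z, hz⟩ := Geod.ex D.loc h
  have h2 := D.Ex_smul γ hz
  rw [← cl_apply, cl_inv'] at h2
  exact h2.geod

/-- in an incomplete Kleinian manifold the incomplete velocities at each point contain a truncated
cone -/
theorem cone_piece [PreconnectedSpace X] [SecondCountableTopology X]
    (D : AffData X Γ E dev hol) (hinj : Function.Injective dev) (hinc : ¬ IsHomeomorph dev)
    {m : ℕ} {δ : ℝ} (hδ : 0 < δ) (hV : ∀ γ : Γ, ∃ V : Submodule ℝ E, Module.finrank ℝ V = m ∧
      ∀ v ∈ V, δ * ‖v‖ ≤ ‖(hol γ).linear v‖) (x : X) :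
    ∃ b : Fin (m + 1) → E, LinearIndependent ℝ b ∧ ∀ s : Fin (m + 1) → ℝ, 1 ≤ s 0 →
      (∀ i, |s i| ≤ s 0) → ¬ Geod dev x (∑ i, s i • b i) := by
  obtain ⟨v, hv⟩ : ∃ v, ¬ Geod dev x v := by
    by_contra hcon
    push Not at hcon
    exact hinc (homeo_of_all D.loc (x := x) fun v => Geod.ex D.loc (hcon v))
  obtain ⟨t, ht0, ht1, htr, htc⟩ := exit_point D.loc hinj hv
  obtain ⟨C0, hC0, hC0r, hcc⟩ := range_cc D
  obtain ⟨e, ρ, hρ, he, hplate⟩ := plate_of_boundary D.loc.isOpenMap.isOpen_range (range_inv D)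
    (range_pd D hinj) hC0 hC0r hcc hδ hV htc htr
  set p := dev x + t • v with hpdef
  obtain ⟨γ, hγ⟩ : ∃ γ : Γ, p - dev (γ • x) ∉ Submodule.span ℝ (range e) := by
    by_contra hcon
    push Not at hcon
    have horb : ∀ γ : Γ, p - dev (γ • x) ∈ Submodule.span ℝ (range e) := hcon
    -- the convex hull of the orbit
    have hCu : convexHull ℝ (range fun γ : Γ => dev (γ • x)) = univ := by
      have : Nonempty X := ⟨x⟩
      refine convex_univ' D (convex_convexHull ℝ _)
        ((range_nonempty _).mono (subset_convexHull ℝ _)) ?_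
      intro γ q hq
      have h1 : (hol γ) '' (convexHull ℝ (range fun γ : Γ => dev (γ • x))) =
          convexHull ℝ ((hol γ) '' (range fun γ : Γ => dev (γ • x))) :=
        AffineMap.image_convexHull ((hol γ) : E →ᵃ[ℝ] E) _
      have h2 : hol γ q ∈ (hol γ) '' (convexHull ℝ (range fun γ : Γ => dev (γ • x))) :=
        ⟨q, hq, rfl⟩
      rw [h1] at h2
      refine convexHull_mono ?_ h2
      rintro _ ⟨_, ⟨γ', rfl⟩, rfl⟩
      refine ⟨γ * γ', ?_⟩
      show dev ((γ * γ') • x) = hol γ (dev (γ' • x))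
      rw [mul_smul, D.equi]
    have hF0 : ∀ q : E, p - q ∈ Submodule.span ℝ (range e) := by
      intro q
      have h1 : q ∈ convexHull ℝ (range fun γ : Γ => dev (γ • x)) := by rw [hCu]; trivial
      have h2 : Convex ℝ {q : E | p - q ∈ Submodule.span ℝ (range e)} := by
        intro a ha b hb s t hs ht hst
        have : p - (s • a + t • b) = s • (p - a) + t • (p - b) := by
          have h3 : p = (s + t) • p := by rw [hst, one_smul]
          conv_lhs => rw [h3]
          module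
        show p - (s • a + t • b) ∈ Submodule.span ℝ (range e)
        rw [this]
        exact Submodule.add_mem _ (Submodule.smul_mem _ _ ha) (Submodule.smul_mem _ _ hb)
      refine convexHull_min ?_ h2 h1
      rintro _ ⟨γ, rfl⟩
      exact horb γ
    -- the plate is open
    have hsurj : Function.Surjective (Fintype.linearCombination ℝ e) := by
      intro w
      have h1 := hF0 (p - w)
      rw [sub_sub_cancel] at h1
      have h2 := (Submodule.mem_span_range_iff_exists_fun ℝ).1 h1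
      obtain ⟨c, hc⟩ := h2
      exact ⟨c, by rw [Fintype.linearCombination_apply]; exact hc⟩
    have hop : IsOpenMap (Fintype.linearCombination ℝ e) :=
      LinearMap.isOpenMap_of_finiteDimensional _ hsurj
    have hO : IsOpen ((fun w => p + w) '' (Fintype.linearCombination ℝ e '' ball 0 ρ)) :=
      (Homeomorph.addLeft p).isOpenMap _ (hop _ isOpen_ball)
    have hpO : p ∈ (fun w => p + w) '' (Fintype.linearCombination ℝ e '' ball 0 ρ) :=
      ⟨0, ⟨0, mem_ball_self hρ, map_zero _⟩, add_zero p⟩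
    obtain ⟨q, hqO, hq⟩ := mem_closure_iff.1 htc _ hO hpO
    obtain ⟨_, ⟨s, hs, rfl⟩, rfl⟩ := hqO
    refine hplate s (mem_ball_zero_iff.1 hs).le ?_
    have h9 : p + (Fintype.linearCombination ℝ e) s ∈ range dev := hq
    rwa [Fintype.linearCombination_apply] at h9
  -- the cone
  have he' : LinearIndependent ℝ (fun i => ρ • e i) :=
    he.units_smul (fun _ => Units.mk0 ρ hρ.ne')
  have hspan : p - dev (γ • x) ∉ Submodule.span ℝ (range fun i => ρ • e i) := by
    intro hcon
    apply hγ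
    refine (Submodule.span_le.2 ?_) hcon
    rintro _ ⟨i, rfl⟩
    exact Submodule.smul_mem _ _ (Submodule.subset_span (mem_range_self i))
  have hind : LinearIndependent ℝ
      (Fin.cons (p - dev (γ • x)) (fun i => ρ • e i) : Fin (m + 1) → E) :=
    linearIndependent_finCons.2 ⟨he', hspan⟩
  have hker : LinearMap.ker ((cl hol γ⁻¹ : E →L[ℝ] E) : E →ₗ[ℝ] E) = ⊥ := by
    rw [LinearMap.ker_eq_bot]
    intro a b hab
    have h1 : cl hol γ⁻¹ a = cl hol γ⁻¹ b := hab
    have h2 := congrArg (cl hol γ) h1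
    rwa [cl_inv', cl_inv'] at h2
  refine ⟨fun i => cl hol γ⁻¹ ((Fin.cons (p - dev (γ • x)) (fun i => ρ • e i) :
    Fin (m + 1) → E) i), hind.map' _ hker, fun s hs0 hs hcon => ?_⟩
  have hsum : ∑ i, s i • cl hol γ⁻¹ ((Fin.cons (p - dev (γ • x)) (fun i => ρ • e i) :
      Fin (m + 1) → E) i) = cl hol γ⁻¹ (∑ i, s i • (Fin.cons (p - dev (γ • x))
        (fun i => ρ • e i) : Fin (m + 1) → E) i) := by
    rw [map_sum]
    exact Finset.sum_congr rfl fun i _ => (map_smul _ _ _).symm
  rw [hsum] at hcon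
  have hg := geod_smul D γ hcon
  have hs00 : 0 < s 0 := by linarith
  have h1 := hplate (fun i => s i.succ / s 0 * ρ) (by
    rw [pi_norm_le_iff_of_nonneg hρ.le]
    intro i
    rw [Real.norm_eq_abs, abs_mul, abs_div, abs_of_pos hs00, abs_of_pos hρ]
    have h2 : |s i.succ| / s 0 ≤ 1 := by
      rw [div_le_one hs00]; exact hs _
    nlinarith)
  have h2 := not_geod (x := γ • x) h1 (l := s 0) hs0
  apply h2
  have h3 : s 0 • (p + ∑ i, (s i.succ / s 0 * ρ) • e i - dev (γ • x)) =
      ∑ i, s i • (Fin.cons (p - dev (γ • x)) (fun i => ρ • e i) : Fin (m + 1) → E) i := by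
    rw [Fin.sum_univ_succ, Fin.cons_zero]
    have e1 : p + ∑ i, (s i.succ / s 0 * ρ) • e i - dev (γ • x) =
      (p - dev (γ • x)) + ∑ i, (s i.succ / s 0 * ρ) • e i := by abel
    rw [e1, smul_add, Finset.smul_sum]
    congr 1
    refine Finset.sum_congr rfl fun i _ => ?_
    rw [Fin.cons_succ, smul_smul, smul_smul]
    congr 1
    field_simp
  rw [h3]
  exact hg

variable [MeasurableSpace E] [BorelSpace E]

theorem many [ConnectedSpace X] [SecondCountableTopology X] (D : AffData X Γ E dev hol)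
    (hinc : ¬ IsHomeomorph dev) :
    (¬ Function.Injective dev → ∀ x : X,
      μH[(Module.finrank ℝ E : ℝ) - 1] {v : E | ¬ Geod dev x v} ≠ 0) ∧
    (Function.Injective dev → ∀ x : X,
      (∀ v, ¬ Geod dev x v → ∃ (t : ℝ) (u : E), 0 < t ∧ t ≤ 1 ∧ LinearIndependent ℝ ![v, u] ∧
        ∀ l : ℝ, t ≤ l → ∀ s : ℝ, ¬ Geod dev x (l • v + s • u)) ∧
      ∀ (m : ℕ) (c : ℝ), 0 < c → (∀ γ : Γ, ∃ V : Submodule ℝ E, Module.finrank ℝ V = m ∧
        ∀ v ∈ V, c * ‖v‖ ≤ ‖(hol γ).linear v‖) →
        ∃ b : Fin (m + 1) → E, LinearIndependent ℝ b ∧ ∀ s : Fin (m + 1) → ℝ, 1 ≤ s 0 →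
          (∀ i, |s i| ≤ s 0) → ¬ Geod dev x (∑ i, s i • b i)) ∧
    (∀ (m : ℕ) (c : ℝ), m + 2 = Module.finrank ℝ E → 0 < c →
      (∀ γ : Γ, ∃ V : Submodule ℝ E, Module.finrank ℝ V = m ∧
        ∀ v ∈ V, c * ‖v‖ ≤ ‖(hol γ).linear v‖) →
      ∀ x : X, μH[(Module.finrank ℝ E : ℝ) - 1] {v : E | ¬ Geod dev x v} ≠ 0) := by
  have h1 : ¬ Function.Injective dev → ∀ x : X,
      μH[(Module.finrank ℝ E : ℝ) - 1] {v : E | ¬ Geod dev x v} ≠ 0 :=
    fun hni x hK => hni ((main D).2 x hK).1
  refine ⟨h1, fun hinj x =>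
    ⟨fun v hv => half_plane D hinj hv, fun m c hc hV => cone_piece D hinj hinc hc hV x⟩,
    fun m c hm hc hV x => ?_⟩
  by_cases hinj : Function.Injective dev
  · obtain ⟨b, hb, hbs⟩ := cone_piece D hinj hinc hc hV x
    have hpos := pos_of_indep (S := {v | ¬ Geod dev x v}) b hb
      (U := {s : Fin (m + 1) → ℝ | 1 < s 0} ∩ {s | ∀ i : Fin m, |s i.succ| < 1})
      ((isOpen_lt continuous_const (continuous_apply 0)).inter (by
        have : {s : Fin (m + 1) → ℝ | ∀ i : Fin m, |s i.succ| < 1} =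
            ⋂ i : Fin m, {s | |s i.succ| < 1} := by ext s; simp
        rw [this]
        exact isOpen_iInter_of_finite fun i =>
          isOpen_lt ((continuous_apply _).abs) continuous_const))
      ⟨Fin.cons 2 (fun _ => 0), by
        show (1 : ℝ) < (Fin.cons 2 (fun _ => 0) : Fin (m + 1) → ℝ) 0
        rw [Fin.cons_zero]; norm_num, fun i => by
        rw [Fin.cons_succ, abs_zero]; exact one_pos⟩
      (by
        rintro s ⟨hs0, hs⟩
        have hs0' : (1 : ℝ) < s 0 := hs0
        refine hbs s hs0'.le fun i => ?_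
        refine Fin.cases ?_ (fun j => ?_) i
        · exact (abs_of_pos (by linarith)).le
        · exact (hs j).le.trans hs0'.le)
    have h2 : ((m + 1 : ℕ) : ℝ) = (Module.finrank ℝ E : ℝ) - 1 := by
      rw [← hm]; push_cast; ring
    rw [h2] at hpos
    exact hpos.ne'
  · exact h1 hinj x

end

end Pool.Agent.TH94.MK
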