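import Pool.Agent.TH94.MK.Lines
import Mathlib.Analysis.InnerProductSpace.PiL2

set_option autoImplicit false

open Set Filter Topology Metric
open Pool.Agent.W689.Mk

namespace Pool.Agent.TH94.MK

section
variable {E : Type} [NormedAddCommGroup E] [NormedSpace ℝ E] [FiniteDimensional ℝ E]

/-- uniformly independent frames of subspaces -/
theorem frame (E : Type) [NormedAddCommGroup E] [NormedSpace ℝ E] [FiniteDimensional ℝ E] (m : ℕ) :
    ∃ κ > 0, ∃ R > 0, ∀ F : Submodule ℝ E, Module.finrank ℝ F = m →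
    ∃ e : Fin m → E, (∀ i, e i ∈ F) ∧ (∀ i, ‖e i‖ ≤ R) ∧
      ∀ t : Fin m → ℝ, κ * ‖t‖ ≤ ‖∑ i, t i • e i‖ := by
  let T : E ≃L[ℝ] EuclideanSpace ℝ (Fin (Module.finrank ℝ E)) := toEuclidean
  have hT1 : 0 < ‖(T : E →L[ℝ] EuclideanSpace ℝ (Fin (Module.finrank ℝ E)))‖ + 1 := by positivity
  refine ⟨(‖(T : E →L[ℝ] EuclideanSpace ℝ (Fin (Module.finrank ℝ E)))‖ + 1)⁻¹, by positivity,
    ‖(T.symm : EuclideanSpace ℝ (Fin (Module.finrank ℝ E)) →L[ℝ] E)‖ + 1, by positivity,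
    fun F hF => ?_⟩
  let F' := F.map (T.toLinearEquiv : E →ₗ[ℝ] EuclideanSpace ℝ (Fin (Module.finrank ℝ E)))
  have hF' : Module.finrank ℝ F' = m := by
    rw [← hF]; exact LinearEquiv.finrank_map_eq T.toLinearEquiv F
  let b := (stdOrthonormalBasis ℝ F').reindex (finCongr hF')
  refine ⟨fun i => T.symm (b i : EuclideanSpace ℝ (Fin (Module.finrank ℝ E))), ?_, ?_, ?_⟩
  · intro i
    obtain ⟨y, hy, hyb⟩ := Submodule.mem_map.1 (b i).2
    have h1 : T y = (b i : EuclideanSpace ℝ (Fin (Module.finrank ℝ E))) := hyb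
    show T.symm (b i : EuclideanSpace ℝ (Fin (Module.finrank ℝ E))) ∈ F
    rw [← h1, T.symm_apply_apply]
    exact hy
  · intro i
    have h1 : ‖(b i : EuclideanSpace ℝ (Fin (Module.finrank ℝ E)))‖ = 1 := b.orthonormal.1 i
    have h2 := (T.symm : EuclideanSpace ℝ (Fin (Module.finrank ℝ E)) →L[ℝ] E).le_opNorm
      (b i : EuclideanSpace ℝ (Fin (Module.finrank ℝ E)))
    rw [h1, mul_one] at h2
    exact h2.trans (by linarith)
  · intro t
    have h1 : ∑ i, t i • T.symm (b i : EuclideanSpace ℝ (Fin (Module.finrank ℝ E))) =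
        T.symm ((∑ i, t i • b i : F') : EuclideanSpace ℝ (Fin (Module.finrank ℝ E))) := by
      rw [Submodule.coe_sum, map_sum]
      refine Finset.sum_congr rfl fun i _ => ?_
      rw [Submodule.coe_smul, map_smul]
    rw [h1]
    set z : F' := ∑ i, t i • b i with hz
    have h2 : ‖t‖ ≤ ‖z‖ := by
      rw [pi_norm_le_iff_of_nonneg (norm_nonneg _)]
      intro j
      have h3 : inner ℝ (b j) z = t j := b.orthonormal.inner_right_fintype t j
      rw [← h3]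
      refine (norm_inner_le_norm _ _).trans ?_
      rw [b.orthonormal.1 j, one_mul]
    have h3 : ‖z‖ ≤ (‖(T : E →L[ℝ] EuclideanSpace ℝ (Fin (Module.finrank ℝ E)))‖ + 1) *
        ‖T.symm (z : EuclideanSpace ℝ (Fin (Module.finrank ℝ E)))‖ := by
      have h4 := (T : E →L[ℝ] EuclideanSpace ℝ (Fin (Module.finrank ℝ E))).le_opNorm
        (T.symm (z : EuclideanSpace ℝ (Fin (Module.finrank ℝ E))))
      have h5 : (T : E →L[ℝ] EuclideanSpace ℝ (Fin (Module.finrank ℝ E)))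
        (T.symm (z : EuclideanSpace ℝ (Fin (Module.finrank ℝ E)))) = z := T.apply_symm_apply _
      rw [h5] at h4
      have h6 : ‖z‖ = ‖(z : EuclideanSpace ℝ (Fin (Module.finrank ℝ E)))‖ := rfl
      rw [h6]
      refine h4.trans ?_
      gcongr
      linarith
    rw [inv_mul_le_iff₀ hT1]
    exact h2.trans h3

variable {Γ : Type} [Group Γ] {hol : Γ →* (E ≃ᵃ[ℝ] E)}

/-- the complement of a domain with compact quotient under a group whose linear parts are bounded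
from below on subspaces of dimension `m` contains an `m`-dimensional plate at each boundary
point -/
theorem plate_of_boundary {Ω : Set E} (hΩ : IsOpen Ω) (hinv : ∀ (γ : Γ), ∀ q ∈ Ω, hol γ q ∈ Ω)
    (hpd : ∀ C : Set E, IsCompact C → C ⊆ Ω → {γ : Γ | ∃ c ∈ C, hol γ c ∈ C}.Finite)
    {C0 : Set E} (hC0 : IsCompact C0) (hC0Ω : C0 ⊆ Ω)
    (hcc : ∀ q ∈ Ω, ∃ γ : Γ, ∃ c ∈ C0, hol γ c = q) {m : ℕ} {δ : ℝ} (hδ : 0 < δ)
    (hV : ∀ γ : Γ, ∃ V : Submodule ℝ E, Module.finrank ℝ V = m ∧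
      ∀ v ∈ V, δ * ‖v‖ ≤ ‖(hol γ).linear v‖) {p : E} (hp : p ∈ closure Ω) (hpΩ : p ∉ Ω) :
    ∃ (e : Fin m → E) (ρ : ℝ), 0 < ρ ∧ LinearIndependent ℝ e ∧
      ∀ t : Fin m → ℝ, ‖t‖ ≤ ρ → p + ∑ i, t i • e i ∉ Ω := by
  have : ProperSpace E := FiniteDimensional.proper_real E
  obtain ⟨a, haΩ, ha⟩ := mem_closure_iff_seq_limit.1 hp
  choose γ c hc hγc using fun k => hcc (a k) (haΩ k)
  obtain ⟨r, hr, hrΩ⟩ := hC0.exists_cthickening_subset_open hΩ hC0Ω
  have hC1 : IsCompact (cthickening r C0) := hC0.cthickening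
  have hin : ∀ k (w : E), ‖w‖ ≤ r → c k + w ∈ cthickening r C0 := by
    intro k w hw
    refine mem_cthickening_of_dist_le _ _ _ _ (hc k) ?_
    rw [dist_eq_norm, add_sub_cancel_left]; exact hw
  have hmove : ∀ k (w : E), hol (γ k) (c k + w) = a k + cl hol (γ k) w := by
    intro k w
    rw [hol_add, hγc k, cl_apply]
  -- first claim
  have claim1 : ∀ q ∈ Ω, ∃ ε > 0, ∀ᶠ k in atTop, ∀ w : E, ‖w‖ ≤ r →
      a k + cl hol (γ k) w ∉ closedBall q ε := by
    intro q hq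
    obtain ⟨ε, hε, hεΩ⟩ := Metric.nhds_basis_closedBall.mem_iff.1 (hΩ.mem_nhds hq)
    refine ⟨ε, hε, ?_⟩
    have hC : IsCompact (cthickening r C0 ∪ closedBall q ε) := hC1.union (isCompact_closedBall _ _)
    have hCΩ : cthickening r C0 ∪ closedBall q ε ⊆ Ω := union_subset hrΩ hεΩ
    have hF := hpd _ hC hCΩ
    set F := {γ : Γ | ∃ c ∈ cthickening r C0 ∪ closedBall q ε,
      hol γ c ∈ cthickening r C0 ∪ closedBall q ε} with hFdef
    have hT : IsCompact (⋃ g ∈ F, hol g '' C0) :=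
      hF.isCompact_biUnion fun g _ => hC0.image (hol_cont g)
    have hpT : p ∉ ⋃ g ∈ F, hol g '' C0 := by
      intro hcon
      obtain ⟨g, _, hcon⟩ := mem_iUnion₂.1 hcon
      obtain ⟨c', hc', rfl⟩ := hcon
      exact hpΩ (hinv g c' (hC0Ω hc'))
    have hev : ∀ᶠ k in atTop, a k ∉ ⋃ g ∈ F, hol g '' C0 :=
      ha.eventually (hT.isClosed.isOpen_compl.mem_nhds hpT)
    filter_upwards [hev] with k hk w hw hcon
    apply hk
    refine mem_iUnion₂.2 ⟨γ k, ?_, c k, hc k, hγc k⟩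
    refine ⟨c k + w, Or.inl (hin k w hw), Or.inr ?_⟩
    rw [hmove]; exact hcon
  -- frames
  obtain ⟨κ, hκ, R, hR, hfr⟩ := frame E m
  have hex : ∀ k, ∃ e : Fin m → E, (∀ i, ‖e i‖ ≤ R) ∧
      (∀ t : Fin m → ℝ, κ * ‖t‖ ≤ ‖∑ i, t i • e i‖) ∧
      ∀ t : Fin m → ℝ, δ⁻¹ * ‖∑ i, t i • e i‖ ≤ r → ∃ w, ‖w‖ ≤ r ∧
        cl hol (γ k) w = ∑ i, t i • e i := by
    intro k
    obtain ⟨V, hVm, hVb⟩ := hV (γ k)
    obtain ⟨e, he1, he2, he3⟩ := hfr (V.map ((hol (γ k)).linear : E →ₗ[ℝ] E)) (by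
      rw [← hVm]; exact LinearEquiv.finrank_map_eq _ V)
    refine ⟨e, he2, he3, fun t ht => ?_⟩
    have h1 : ∑ i, t i • e i ∈ V.map ((hol (γ k)).linear : E →ₗ[ℝ] E) :=
      Submodule.sum_mem _ fun i _ => Submodule.smul_mem _ _ (he1 i)
    obtain ⟨w, hw, hwe⟩ := Submodule.mem_map.1 h1
    refine ⟨w, ?_, hwe⟩
    have h2 := hVb w hw
    have h3 : (hol (γ k)).linear w = ∑ i, t i • e i := hwe
    rw [h3] at h2
    calc ‖w‖ = δ⁻¹ * (δ * ‖w‖) := by field_simp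
      _ ≤ δ⁻¹ * ‖∑ i, t i • e i‖ := by gcongr
      _ ≤ r := ht
  choose e he1 he2 he3 using hex
  obtain ⟨e0, _, φ, hφ, hφe⟩ := (isCompact_closedBall (0 : Fin m → E) R).tendsto_subseq
    (x := e) (fun k => by
      rw [mem_closedBall_zero_iff, pi_norm_le_iff_of_nonneg hR.le]; exact he1 k)
  have hφt := hφ.tendsto_atTop
  have hsum : ∀ t : Fin m → ℝ, Tendsto (fun k => ∑ i, t i • e (φ k) i) atTop
      (𝓝 (∑ i, t i • e0 i)) := by
    intro t
    refine tendsto_finsetSum _ fun i _ => ?_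
    exact ((continuous_apply i).continuousAt.tendsto.comp hφe).const_smul _
  have hlow : ∀ t : Fin m → ℝ, κ * ‖t‖ ≤ ‖∑ i, t i • e0 i‖ := by
    intro t
    exact ge_of_tendsto (hsum t).norm (Eventually.of_forall fun k => he2 _ t)
  obtain ⟨ρ, hρ, hρb⟩ : ∃ ρ > 0, ∀ k (t : Fin m → ℝ), ‖t‖ ≤ ρ → δ⁻¹ * ‖∑ i, t i • e k i‖ ≤ r := by
    refine ⟨δ * r / (m * R + 1), by positivity, fun k t ht => ?_⟩
    have h1 : ‖∑ i, t i • e k i‖ ≤ m * (‖t‖ * R) := by
      refine (norm_sum_le _ _).trans ?_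
      calc ∑ i, ‖t i • e k i‖ ≤ ∑ _i : Fin m, ‖t‖ * R := by
            refine Finset.sum_le_sum fun i _ => ?_
            rw [norm_smul]
            exact mul_le_mul (norm_le_pi_norm t i) (he1 k i) (norm_nonneg _) (norm_nonneg _)
        _ = m * (‖t‖ * R) := by simp
    have h2 : 0 < (m : ℝ) * R + 1 := by positivity
    have h3 : ‖t‖ * (m * R + 1) ≤ δ * r := by
      rw [le_div_iff₀ h2] at ht; exact ht
    rw [inv_mul_le_iff₀ hδ]
    refine h1.trans ?_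
    nlinarith [norm_nonneg t]
  refine ⟨e0, ρ, hρ, ?_, fun t ht hq => ?_⟩
  · rw [Fintype.linearIndependent_iff]
    intro t h0 i
    have h1 := hlow t
    rw [h0, norm_zero] at h1
    have h2 : ‖t‖ ≤ 0 := by
      by_contra h3
      push Not at h3
      have : 0 < κ * ‖t‖ := by positivity
      linarith
    have h3 : t = 0 := norm_le_zero_iff.1 h2
    rw [h3]; rfl
  · obtain ⟨ε, hε, hev⟩ := claim1 _ hq
    have h1 : Tendsto (fun k => a (φ k) + ∑ i, t i • e (φ k) i) atTop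
        (𝓝 (p + ∑ i, t i • e0 i)) := (ha.comp hφt).add (hsum t)
    obtain ⟨k, hk1, hk2⟩ := ((h1.eventually (closedBall_mem_nhds _ hε)).and
      (hφt.eventually hev)).exists
    obtain ⟨w, hw, hwe⟩ := he3 (φ k) t (hρb _ t ht)
    refine hk2 w hw ?_
    rw [hwe]; exact hk1

end

end Pool.Agent.TH94.MK
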